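import Mathlib

set_option autoImplicit false

set_option linter.unusedSectionVars false

namespace Pool.Agent.Results.MP_587f0f_co.UnboundedLeray

open Finset

/-- A finite subfamily `M` is a comatching: every `f ∈ M` misses a point which lies in all the
other members of `M`. -/
def IsComatching {X : Type*} (M : Finset (Set X)) : Prop :=
  ∀ f ∈ M, ∃ a : X, a ∉ f ∧ ∀ g ∈ M, g ≠ f → a ∈ g

/-- The comatching number of the family `F` of subsets of `X` is at most `t`. -/
def ComatchingNumberLE {X : Type*} (F : Set (Set X)) (t : ℕ) : Prop :=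
  ∀ M : Finset (Set X), (M : Set (Set X)) ⊆ F → IsComatching M → M.card ≤ t

/-- The nerve of the family `F`: its faces are the nonempty finite subfamilies of `F` with
nonempty common intersection. -/
def nerve {X : Type*} (F : Set (Set X)) : PreAbstractSimplicialComplex (Set X) where
  faces := {σ | σ.Nonempty ∧ (σ : Set (Set X)) ⊆ F ∧ ∃ x : X, ∀ A ∈ σ, x ∈ A}
  isRelLowerSet_faces := by
    intro σ hσ
    refine ⟨hσ.1, ?_⟩
    intro τ hτσ hτ
    refine ⟨hτ, ?_, ?_⟩
    · intro A hA
      exact hσ.2.1 (hτσ hA)
    · obtain ⟨x, hx⟩ := hσ.2.2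
      exact ⟨x, fun A hA => hx A (hτσ hA)⟩

/-- The induced subcomplex of `K` on the vertex set `W`. -/
def induced {V : Type*} (K : PreAbstractSimplicialComplex V) (W : Set V) :
    PreAbstractSimplicialComplex V where
  faces := {σ | σ ∈ K.faces ∧ (σ : Set V) ⊆ W}
  isRelLowerSet_faces := by
    intro σ hσ
    refine ⟨(K.isRelLowerSet_faces hσ.1).1, ?_⟩
    intro τ hτσ hτ
    refine ⟨(K.isRelLowerSet_faces hσ.1).2 hτσ hτ, ?_⟩
    intro v hv
    exact hσ.2 (hτσ hv)

open scoped Classical in
/-- The boundary operator of rational simplicial chains, with respect to a total order `r` of the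
vertices: the simplex `σ` is sent to the sum over `v ∈ σ` of `(-1) ^ k` times `σ` without `v`,
where `k` is the number of vertices of `σ` which are smaller than `v`. -/
noncomputable def boundary {V : Type*} (r : V → V → Prop) :
    (Finset V →₀ ℚ) →ₗ[ℚ] (Finset V →₀ ℚ) :=
  Finsupp.linearCombination ℚ (fun σ : Finset V =>
    ∑ v ∈ σ, Finsupp.single (σ.erase v) ((-1 : ℚ) ^ (σ.filter (fun u => r u v)).card))

/-- `c` is an `i`-chain of `K`: a rational combination of faces with `i + 1` vertices. -/
def IsChainOf {V : Type*} (K : PreAbstractSimplicialComplex V) (i : ℕ)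
    (c : Finset V →₀ ℚ) : Prop :=
  ∀ σ ∈ c.support, σ ∈ K.faces ∧ σ.card = i + 1

/-- The reduced simplicial homology of `K` with rational coefficients vanishes in degree `i`:
every `i`-cycle is the boundary of an `(i + 1)`-chain. (For `i = 0` a cycle has zero
coefficient sum, since `boundary` sends a vertex to the empty simplex, so this is reduced
homology.) -/
def HomologyVanishes {V : Type*} (r : V → V → Prop) (K : PreAbstractSimplicialComplex V)
    (i : ℕ) : Prop :=
  ∀ z : Finset V →₀ ℚ, IsChainOf K i z → boundary r z = 0 →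
    ∃ b : Finset V →₀ ℚ, IsChainOf K (i + 1) b ∧ boundary r b = z

/-- `K` is `d`-Leray: every induced subcomplex has vanishing reduced rational homology in all
degrees `i ≥ d`. The homology is computed with the total order `r` of the vertices. -/
def IsLeray {V : Type*} (r : V → V → Prop) (d : ℕ) (K : PreAbstractSimplicialComplex V) : Prop :=
  ∀ W : Set V, ∀ i : ℕ, d ≤ i → HomologyVanishes r (induced K W) i

section general

open scoped Classical

variable {V : Type*}

lemma boundary_single (r : V → V → Prop) (σ : Finset V) (a : ℚ) :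
    boundary r (Finsupp.single σ a) = ∑ v ∈ σ, Finsupp.single (σ.erase v)
      (a * (-1 : ℚ) ^ (σ.filter (fun u => r u v)).card) := by
  unfold boundary
  rw [Finsupp.linearCombination_single, Finset.smul_sum]
  refine Finset.sum_congr rfl fun v _ => ?_
  rw [Finsupp.smul_single, smul_eq_mul]

lemma boundary_apply [Fintype V] (r : V → V → Prop) [IsStrictTotalOrder V r]
    (c : Finset V →₀ ℚ) (ρ : Finset V) :
    boundary r c ρ = ∑ v ∈ univ.filter (fun v => v ∉ ρ),
      (-1 : ℚ) ^ (ρ.filter (fun u => r u v)).card * c (insert v ρ) := by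
  induction c using Finsupp.induction_linear with
  | zero => simp
  | add f g hf hg =>
    rw [map_add, Finsupp.add_apply, hf, hg, ← Finset.sum_add_distrib]
    refine Finset.sum_congr rfl fun v _ => ?_
    rw [Finsupp.add_apply]; ring
  | single σ a =>
    rw [boundary_single, Finsupp.finsetSum_apply]
    -- both sides: sum over v with v ∈ σ, σ.erase v = ρ
    have h1 : ∀ v, (if v ∈ σ then (Finsupp.single (σ.erase v)
        (a * (-1 : ℚ) ^ (σ.filter (fun u => r u v)).card)) ρ else 0) =
        (if v ∉ ρ then (-1 : ℚ) ^ (ρ.filter (fun u => r u v)).card *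
          (Finsupp.single σ a) (insert v ρ) else 0) := by
      intro v
      by_cases hv : v ∈ σ
      · rw [if_pos hv]
        by_cases h : σ.erase v = ρ
        · have hvρ : v ∉ ρ := by rw [← h]; exact Finset.notMem_erase v σ
          have hins : insert v ρ = σ := by rw [← h]; exact Finset.insert_erase hv
          rw [if_pos hvρ, hins, h]
          simp only [Finsupp.single_eq_same]
          rw [mul_comm]
          congr 2
          rw [← hins, Finset.filter_insert, if_neg (irrefl v)]
        · rw [Finsupp.single_eq_of_ne (by exact fun h' => h h'.symm)]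
          by_cases hvρ : v ∉ ρ
          · rw [if_pos hvρ]
            have : σ ≠ insert v ρ := by
              intro h'
              apply h
              rw [h', Finset.erase_insert hvρ]
            rw [Finsupp.single_eq_of_ne (by exact fun h' => this h'.symm), mul_zero]
          · rw [if_neg hvρ]
      · rw [if_neg hv]
        by_cases hvρ : v ∉ ρ
        · rw [if_pos hvρ]
          have : σ ≠ insert v ρ := by
            intro h'
            apply hv
            rw [h']; exact Finset.mem_insert_self v ρ
          rw [Finsupp.single_eq_of_ne (by exact fun h' => this h'.symm), mul_zero]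
        · rw [if_neg hvρ]
    have h2 := Finset.sum_congr (rfl : (univ : Finset V) = univ) (fun v _ => h1 v)
    rw [Finset.sum_ite_mem, Finset.univ_inter] at h2
    rw [h2, Finset.sum_filter]

lemma boundary_boundary [Fintype V] (r : V → V → Prop) [IsStrictTotalOrder V r]
    (c : Finset V →₀ ℚ) : boundary r (boundary r c) = 0 := by
  ext ρ
  rw [boundary_apply]
  simp only [boundary_apply, Finset.mul_sum, Finsupp.coe_zero, Pi.zero_apply]
  rw [Finset.sum_sigma']
  refine Finset.sum_involution (fun p _ => ⟨p.2, p.1⟩) ?_ ?_ ?_ ?_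
  · rintro ⟨v, w⟩ h
    simp only [mem_sigma, mem_filter, mem_univ, true_and, Finset.mem_insert, not_or] at h
    obtain ⟨hv, hwv, hw⟩ := h
    simp only
    have e1 : insert w (insert v ρ) = insert v (insert w ρ) := Finset.insert_comm _ _ _
    rw [e1]
    rw [Finset.filter_insert, Finset.filter_insert]
    rcases trichotomous_of r v w with h | h | h
    · have h' : ¬ r w v := asymm h
      rw [if_pos h, if_neg h']
      rw [Finset.card_insert_of_notMem (by simp [hv])]
      ring
    · exact absurd h.symm hwv
    · have h' : ¬ r v w := asymm h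
      rw [if_neg h', if_pos h]
      rw [Finset.card_insert_of_notMem (by simp [hw])]
      ring
  · rintro ⟨v, w⟩ h _
    simp only [mem_sigma, mem_filter, mem_univ, true_and, Finset.mem_insert, not_or] at h
    obtain ⟨hv, hwv, hw⟩ := h
    intro h2
    apply hwv
    have := congrArg Sigma.fst h2
    exact this
  · rintro ⟨v, w⟩ h
    simp only [mem_sigma, mem_filter, mem_univ, true_and, Finset.mem_insert, not_or] at h ⊢
    obtain ⟨hv, hwv, hw⟩ := h
    exact ⟨hw, fun h => hwv h.symm, hv⟩
  · rintro ⟨v, w⟩ h
    rfl

/-- Naturality of the boundary under order embeddings of the vertex set. -/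
lemma boundary_mapDomain {V' : Type*} (r : V → V → Prop) (r' : V' → V' → Prop)
    (j : V ↪ V') (hj : ∀ u v, r' (j u) (j v) ↔ r u v) (c : Finset V →₀ ℚ) :
    boundary r' (Finsupp.mapDomain (Finset.map j) c) =
      Finsupp.mapDomain (Finset.map j) (boundary r c) := by
  induction c using Finsupp.induction_linear with
  | zero => simp
  | add f g hf hg =>
    rw [Finsupp.mapDomain_add, map_add, map_add, Finsupp.mapDomain_add, hf, hg]
  | single σ a =>
    rw [Finsupp.mapDomain_single, boundary_single, boundary_single,
      Finsupp.mapDomain_finsetSum, Finset.sum_map]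
    refine Finset.sum_congr rfl fun v _ => ?_
    rw [Finsupp.mapDomain_single, Finset.map_erase, Finset.filter_map, Finset.card_map]
    congr 4
    ext u
    simp [hj]

/-- Every cycle is the boundary of a chain of the full simplex. -/
lemma exists_cone [Fintype V] (r : V → V → Prop) [IsStrictTotalOrder V r] (v0 : V)
    (hv0 : ∀ v, ¬ r v v0) (z : Finset V →₀ ℚ) (hz : boundary r z = 0) (n : ℕ)
    (hzn : ∀ σ ∈ z.support, σ.card = n) :
    ∃ c : Finset V →₀ ℚ, (∀ σ ∈ c.support, σ.card = n + 1) ∧ boundary r c = z := by
  refine ⟨Finsupp.equivFunOnFinite.symm (fun σ => if v0 ∈ σ then z (σ.erase v0) else 0),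
    ?_, ?_⟩
  · intro σ hσ
    rw [Finsupp.mem_support_iff] at hσ
    simp only [Finsupp.equivFunOnFinite_symm_apply_apply, ne_eq, ite_eq_right_iff,
      Classical.not_imp] at hσ
    have := hzn (σ.erase v0) (by rw [Finsupp.mem_support_iff]; exact hσ.2)
    rw [Finset.card_erase_of_mem hσ.1] at this
    have h1 : 0 < σ.card := Finset.card_pos.mpr ⟨v0, hσ.1⟩
    omega
  · ext ρ
    rw [boundary_apply]
    simp only [Finsupp.equivFunOnFinite_symm_apply_apply]
    by_cases h : v0 ∈ ρ
    · have h1 := DFunLike.congr_fun hz (ρ.erase v0)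
      rw [boundary_apply, Finsupp.coe_zero, Pi.zero_apply] at h1
      have h2 : (univ.filter (fun v => v ∉ ρ.erase v0) : Finset V) =
          insert v0 (univ.filter (fun v => v ∉ ρ)) := by
        ext v
        simp only [mem_filter, mem_univ, true_and, Finset.mem_erase, Finset.mem_insert]
        tauto
      rw [h2, Finset.sum_insert (by simp [h])] at h1
      have h3 : ((ρ.erase v0).filter (fun u => r u v0)).card = 0 := by
        rw [Finset.card_eq_zero, Finset.filter_eq_empty_iff]
        intro u _
        exact hv0 u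
      rw [h3, pow_zero, one_mul, Finset.insert_erase h] at h1
      have h4 : ∀ v ∈ (univ.filter (fun v => v ∉ ρ) : Finset V),
          (-1 : ℚ) ^ (ρ.filter (fun u => r u v)).card *
            (if v0 ∈ insert v ρ then z ((insert v ρ).erase v0) else 0) =
          - ((-1 : ℚ) ^ ((ρ.erase v0).filter (fun u => r u v)).card *
            z (insert v (ρ.erase v0))) := by
        intro v hv
        simp only [mem_filter, mem_univ, true_and] at hv
        have hne : v ≠ v0 := fun h' => hv (h' ▸ h)
        have hr : r v0 v := by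
          rcases trichotomous_of r v0 v with h' | h' | h'
          · exact h'
          · exact absurd h'.symm hne
          · exact absurd h' (hv0 v)
        rw [if_pos (Finset.mem_insert_of_mem h)]
        have e1 : (insert v ρ).erase v0 = insert v (ρ.erase v0) := by
          rw [Finset.erase_insert_of_ne hne]
        have e2 : ρ.filter (fun u => r u v) =
            insert v0 ((ρ.erase v0).filter (fun u => r u v)) := by
          ext u
          simp only [mem_filter, Finset.mem_insert, Finset.mem_erase]
          constructor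
          · rintro ⟨h5, h6⟩
            by_cases h7 : u = v0
            · exact Or.inl h7
            · exact Or.inr ⟨⟨h7, h5⟩, h6⟩
          · rintro (h5 | h5)
            · rw [h5]; exact ⟨h, hr⟩
            · exact ⟨h5.1.2, h5.2⟩
        rw [e1, e2, Finset.card_insert_of_notMem (by simp)]
        ring
      rw [Finset.sum_congr rfl h4, Finset.sum_neg_distrib]
      linarith
    · rw [Finset.sum_eq_single v0]
      · rw [if_pos (Finset.mem_insert_self _ _), Finset.erase_insert h]
        have h3 : (ρ.filter (fun u => r u v0)).card = 0 := by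
          rw [Finset.card_eq_zero, Finset.filter_eq_empty_iff]
          intro u _
          exact hv0 u
        rw [h3, pow_zero, one_mul]
      · intro v _ hne
        rw [if_neg, mul_zero]
        rw [Finset.mem_insert]
        rintro (h' | h')
        · exact hne h'.symm
        · exact h h'
      · intro h'
        exfalso
        apply h'
        simp [h]

/-- The sign comparing the orientations of `σ` given by two orders `r` and `r'`. -/
noncomputable def epsSign (r r' : V → V → Prop) (σ : Finset V) : ℚ :=
  (-1 : ℚ) ^ ((σ ×ˢ σ).filter (fun p => r p.1 p.2 ∧ r' p.2 p.1)).card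

lemma epsSign_mul_self (r r' : V → V → Prop) (σ : Finset V) :
    epsSign r r' σ * epsSign r r' σ = 1 := by
  unfold epsSign
  rw [← pow_add, ← two_mul, pow_mul]
  simp

/-- Change of order, on chains. -/
noncomputable def reorient [Fintype V] (r r' : V → V → Prop) (c : Finset V →₀ ℚ) :
    Finset V →₀ ℚ :=
  Finsupp.equivFunOnFinite.symm (fun σ => epsSign r r' σ * c σ)

lemma reorient_apply [Fintype V] (r r' : V → V → Prop) (c : Finset V →₀ ℚ) (σ : Finset V) :
    reorient r r' c σ = epsSign r r' σ * c σ := rfl

lemma reorient_reorient [Fintype V] (r r' : V → V → Prop) (c : Finset V →₀ ℚ) :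
    reorient r r' (reorient r r' c) = c := by
  ext σ
  rw [reorient_apply, reorient_apply, ← mul_assoc, epsSign_mul_self, one_mul]

lemma support_reorient [Fintype V] (r r' : V → V → Prop) (c : Finset V →₀ ℚ) :
    (reorient r r' c).support ⊆ c.support := by
  intro σ hσ
  rw [Finsupp.mem_support_iff, reorient_apply] at hσ
  rw [Finsupp.mem_support_iff]
  exact right_ne_zero_of_mul hσ

lemma boundary_reorient [Fintype V] (r r' : V → V → Prop) [IsStrictTotalOrder V r]
    [IsStrictTotalOrder V r'] (c : Finset V →₀ ℚ) :
    boundary r' (reorient r r' c) = reorient r r' (boundary r c) := by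
  ext ρ
  rw [boundary_apply, reorient_apply, boundary_apply, Finset.mul_sum]
  refine Finset.sum_congr rfl fun v hv => ?_
  simp only [mem_filter, mem_univ, true_and] at hv
  rw [reorient_apply, ← mul_assoc, ← mul_assoc]
  congr 1
  unfold epsSign
  rw [← pow_add, ← pow_add]
  -- sets
  have key : ((insert v ρ ×ˢ insert v ρ).filter (fun p => r p.1 p.2 ∧ r' p.2 p.1)).card =
      ((ρ ×ˢ ρ).filter (fun p => r p.1 p.2 ∧ r' p.2 p.1)).card
      + (ρ.filter (fun u => r u v ∧ r' v u)).card + (ρ.filter (fun u => r v u ∧ r' u v)).card := by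
    have h1 : ((insert v ρ ×ˢ insert v ρ).filter (fun p => r p.1 p.2 ∧ r' p.2 p.1)) =
        (((ρ ×ˢ ρ).filter (fun p => r p.1 p.2 ∧ r' p.2 p.1)) ∪
        ((ρ.filter (fun u => r u v ∧ r' v u)).image (fun u => (u, v)))) ∪
        ((ρ.filter (fun u => r v u ∧ r' u v)).image (fun u => (v, u))) := by
      ext ⟨a, b⟩
      simp only [mem_filter, mem_product, mem_insert, mem_union, mem_image, Prod.mk.injEq]
      constructor
      · rintro ⟨⟨ha, hb⟩, h1, h2⟩
        rcases ha with ha | ha
        · rcases hb with hb | hb
          · subst ha; subst hb; exact absurd h1 (irrefl _)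
          · subst ha
            right
            exact ⟨b, ⟨hb, h1, h2⟩, rfl, rfl⟩
        · rcases hb with hb | hb
          · subst hb
            left; right
            exact ⟨a, ⟨ha, h1, h2⟩, rfl, rfl⟩
          · left; left
            exact ⟨⟨ha, hb⟩, h1, h2⟩
      · rintro ((⟨⟨ha, hb⟩, h1, h2⟩ | ⟨u, ⟨hu, h1, h2⟩, h3, h4⟩) | ⟨u, ⟨hu, h1, h2⟩, h3, h4⟩)
        · exact ⟨⟨Or.inr ha, Or.inr hb⟩, h1, h2⟩
        · subst h3; subst h4
          exact ⟨⟨Or.inr hu, Or.inl rfl⟩, h1, h2⟩
        · subst h3; subst h4
          exact ⟨⟨Or.inl rfl, Or.inr hu⟩, h1, h2⟩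
    rw [h1, Finset.card_union_of_disjoint, Finset.card_union_of_disjoint,
      Finset.card_image_of_injective, Finset.card_image_of_injective]
    · intro a b h; exact (Prod.mk.inj h).2
    · intro a b h; exact (Prod.mk.inj h).1
    · rw [Finset.disjoint_left]
      rintro ⟨a, b⟩ h2 h3
      simp only [mem_filter, mem_product, mem_image, Prod.mk.injEq] at h2 h3
      obtain ⟨u, -, -, h4⟩ := h3
      exact hv (h4 ▸ h2.1.2)
    · rw [Finset.disjoint_left]
      rintro ⟨a, b⟩ h2 h3
      simp only [mem_filter, mem_product, mem_image, Prod.mk.injEq, mem_union] at h2 h3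
      obtain ⟨u, ⟨hu, -, -⟩, h4, h4'⟩ := h3
      rcases h2 with h2 | ⟨w, ⟨hw, -, -⟩, h5, h5'⟩
      · exact hv (h4 ▸ h2.1.1)
      · subst h4
        exact hv (h5 ▸ hw)
  have k1 : (ρ.filter (fun u => r' u v)).card =
      (ρ.filter (fun u => r u v ∧ r' u v)).card + (ρ.filter (fun u => r v u ∧ r' u v)).card := by
    rw [← Finset.card_union_of_disjoint]
    · congr 1
      ext u
      simp only [mem_filter, mem_union]
      constructor
      · rintro ⟨hu, h1⟩
        rcases trichotomous_of r u v with h | h | h
        · exact Or.inl ⟨hu, h, h1⟩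
        · exact absurd (h ▸ hu) hv
        · exact Or.inr ⟨hu, h, h1⟩
      · rintro (⟨hu, h1, h2⟩ | ⟨hu, h1, h2⟩)
        · exact ⟨hu, h2⟩
        · exact ⟨hu, h2⟩
    · rw [Finset.disjoint_left]
      intro u h1 h2
      simp only [mem_filter] at h1 h2
      exact asymm h1.2.1 h2.2.1
  have k2 : (ρ.filter (fun u => r u v)).card =
      (ρ.filter (fun u => r u v ∧ r' u v)).card + (ρ.filter (fun u => r u v ∧ r' v u)).card := by
    rw [← Finset.card_union_of_disjoint]
    · congr 1
      ext u
      simp only [mem_filter, mem_union]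
      constructor
      · rintro ⟨hu, h1⟩
        rcases trichotomous_of r' u v with h | h | h
        · exact Or.inl ⟨hu, h1, h⟩
        · exact absurd (h ▸ hu) hv
        · exact Or.inr ⟨hu, h1, h⟩
      · rintro (⟨hu, h1, h2⟩ | ⟨hu, h1, h2⟩)
        · exact ⟨hu, h1⟩
        · exact ⟨hu, h1⟩
    · rw [Finset.disjoint_left]
      intro u h1 h2
      simp only [mem_filter] at h1 h2
      exact asymm h1.2.2 h2.2.2
  rw [key, k1, k2]
  apply neg_one_pow_congr
  constructor
  · intro h
    rw [Nat.even_iff] at h ⊢
    omega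
  · intro h
    rw [Nat.even_iff] at h ⊢
    omega

end general

/-- The statement proved by induction on `n`: there is a finite family of finite sets, without
comatchings of size three, whose nerve has nonzero homology in degree `n`. -/
def Exists (n : ℕ) : Prop :=
  ∃ (E V : Type) (_ : Fintype E) (_ : Fintype V) (S : V → Finset E) (r : V → V → Prop)
    (_ : IsStrictTotalOrder V r) (z : Finset V →₀ ℚ),
    Function.Injective S ∧
    (∀ u v w : V, (∃ e, e ∉ S u ∧ e ∈ S v ∧ e ∈ S w) → (∃ e, e ∈ S u ∧ e ∉ S v ∧ e ∈ S w) →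
      (∃ e, e ∈ S u ∧ e ∈ S v ∧ e ∉ S w) → False) ∧
    (∀ σ ∈ z.support, (∃ e, ∀ v ∈ σ, e ∈ S v) ∧ σ.card = n + 1) ∧
    boundary r z = 0 ∧
    ¬ ∃ b : Finset V →₀ ℚ, (∀ σ ∈ b.support, (∃ e, ∀ v ∈ σ, e ∈ S v) ∧ σ.card = n + 1 + 1) ∧
      boundary r b = z

lemma exists_zero : Exists 0 := by
  classical
  refine ⟨Bool, Bool, inferInstance, inferInstance, fun b => {b}, (· < ·), inferInstance,
    Finsupp.single {true} 1 - Finsupp.single {false} 1, ?_, ?_, ?_, ?_, ?_⟩
  · intro a b h
    simpa using h
  · simp only [mem_singleton]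
    decide
  · intro σ hσ
    have h1 := Finsupp.support_sub hσ
    rw [mem_union] at h1
    rcases h1 with h1 | h1
    · have h2 := Finsupp.support_single_subset h1
      rw [mem_singleton] at h2
      subst h2
      simp
    · have h2 := Finsupp.support_single_subset h1
      rw [mem_singleton] at h2
      subst h2
      simp
  · rw [map_sub, boundary_single, boundary_single]
    simp only [sum_singleton, erase_singleton]
    simp [Finset.filter_singleton]
  · rintro ⟨b, hb, hb2⟩
    have hb0 : b = 0 := by
      rw [← Finsupp.support_eq_empty, Finset.eq_empty_iff_forall_notMem]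
      intro σ hσ
      obtain ⟨⟨e, he⟩, h2⟩ := hb σ hσ
      have : σ ⊆ {e} := by
        intro v hv
        have := he v hv
        simp only [mem_singleton] at this ⊢
        exact this.symm
      have := Finset.card_le_card this
      simp at this
      omega
    rw [hb0, map_zero] at hb2
    have := DFunLike.congr_fun hb2 {true}
    simp at this

section step

open scoped Classical

variable {E V : Type} [Fintype E] [Fintype V]

/-- The index type of the new family: subcubes of the cube `Finset E` whose set of directions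
is one of the sets `S v`. -/
structure NewV (S : V → Finset E) : Type where
  /-- the index of the set of directions of the subcube -/
  ty : V
  /-- the least point of the subcube -/
  base : Finset E
  disj : Disjoint base (S ty)

lemma NewV.ext' {S : V → Finset E} {p q : NewV S} (h : p.ty = q.ty) (h' : p.base = q.base) :
    p = q := by
  cases p; cases q
  simp only at h h'
  subst h; subst h'
  rfl

noncomputable instance (S : V → Finset E) : Fintype (NewV S) :=
  Fintype.ofInjective (fun p : NewV S => (p.ty, p.base)) (by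
    intro p q h
    exact NewV.ext' (Prod.mk.inj h).1 (Prod.mk.inj h).2)

/-- The new family: subcubes of the cube `Finset E`. -/
noncomputable def newS (S : V → Finset E) (p : NewV S) : Finset (Finset E) :=
  univ.filter (fun x => x \ S p.ty = p.base)

lemma mem_newS (S : V → Finset E) (p : NewV S) (x : Finset E) :
    x ∈ newS S p ↔ x \ S p.ty = p.base := by
  simp [newS]

/-- The subcubes through the point `x`. -/
noncomputable def chamber (S : V → Finset E) (x : Finset E) : V ↪ NewV S where
  toFun v := ⟨v, x \ S v, disjoint_sdiff_self_left⟩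
  inj' := by
    intro u v h
    have := congrArg (fun p : NewV S => p.ty) h
    exact this

lemma chamber_fst (S : V → Finset E) (x : Finset E) (v : V) : (chamber S x v).ty = v := rfl

lemma chamber_snd (S : V → Finset E) (x : Finset E) (v : V) :
    (chamber S x v).base = x \ S v := rfl

lemma mem_newS_iff (S : V → Finset E) (p : NewV S) (x : Finset E) :
    x ∈ newS S p ↔ chamber S x p.ty = p := by
  rw [mem_newS]
  constructor
  · intro h
    apply NewV.ext'
    · rfl
    · exact h
  · intro h
    have := congrArg (fun p : NewV S => p.base) h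
    exact this

lemma newS_injective (S : V → Finset E) (hS : Function.Injective S) :
    Function.Injective (newS S) := by
  have sub : ∀ p q : NewV S, newS S p = newS S q → S p.ty ⊆ S q.ty := by
    intro p q h e he
    have h1 : p.base ∈ newS S p := by
      rw [mem_newS]
      exact Finset.sdiff_eq_self_of_disjoint p.disj
    have h2 : insert e p.base ∈ newS S p := by
      rw [mem_newS, Finset.insert_sdiff_of_mem _ he]
      exact Finset.sdiff_eq_self_of_disjoint p.disj
    rw [h, mem_newS] at h1 h2
    by_contra hne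
    have he' : e ∉ p.base := fun h' => (Finset.disjoint_left.mp p.disj h') he
    have h3 : e ∈ insert e p.base \ S q.ty := by
      rw [Finset.mem_sdiff]
      exact ⟨Finset.mem_insert_self _ _, hne⟩
    rw [h2, ← h1, Finset.mem_sdiff] at h3
    exact he' h3.1
  intro p q h
  have h1 : S p.ty = S q.ty := Finset.Subset.antisymm (sub p q h) (sub q p h.symm)
  have h2 : p.ty = q.ty := hS h1
  have h3 : p.base ∈ newS S p := by
    rw [mem_newS]
    exact Finset.sdiff_eq_self_of_disjoint p.disj
  have h4 := h3
  rw [h] at h4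
  rw [mem_newS] at h3 h4
  apply NewV.ext' h2
  rw [← h4, ← h1, h3]

lemma symmDiff_aux (x y z : Finset E) (e : E) (he : e ∈ symmDiff x y)
    (hyz : e ∉ symmDiff y z) : e ∈ symmDiff x z := by
  rw [Finset.mem_symmDiff] at he hyz ⊢
  tauto

lemma newS_tau (S : V → Finset E)
    (hS : ∀ u v w : V, (∃ e, e ∉ S u ∧ e ∈ S v ∧ e ∈ S w) → (∃ e, e ∈ S u ∧ e ∉ S v ∧ e ∈ S w) →
      (∃ e, e ∈ S u ∧ e ∈ S v ∧ e ∉ S w) → False) (p q s : NewV S)
    (h1 : ∃ x, x ∉ newS S p ∧ x ∈ newS S q ∧ x ∈ newS S s)
    (h2 : ∃ x, x ∈ newS S p ∧ x ∉ newS S q ∧ x ∈ newS S s)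
    (h3 : ∃ x, x ∈ newS S p ∧ x ∈ newS S q ∧ x ∉ newS S s) : False := by
  -- if `x1, x2` lie in one subcube and differ at `e`, then `e` is a direction of that subcube
  have agree : ∀ (t : NewV S) (x y : Finset E), x ∈ newS S t → y ∈ newS S t →
      ∀ e, e ∈ symmDiff x y → e ∈ S t.ty := by
    intro t x y hx hy e he
    rw [mem_newS] at hx hy
    by_contra hne
    rw [Finset.mem_symmDiff] at he
    rcases he with ⟨h, h'⟩ | ⟨h, h'⟩
    · have : e ∈ x \ S t.ty := Finset.mem_sdiff.mpr ⟨h, hne⟩
      rw [hx, ← hy, Finset.mem_sdiff] at this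
      exact h' this.1
    · have : e ∈ y \ S t.ty := Finset.mem_sdiff.mpr ⟨h, hne⟩
      rw [hy, ← hx, Finset.mem_sdiff] at this
      exact h' this.1
  -- a point outside the subcube differs from a point of the subcube at a non-direction
  have differ : ∀ (t : NewV S) (x y : Finset E), x ∉ newS S t → y ∈ newS S t →
      ∃ e, e ∈ symmDiff x y ∧ e ∉ S t.ty := by
    intro t x y hx hy
    rw [mem_newS] at hx hy
    rw [← hy] at hx
    by_contra hcon
    push Not at hcon
    apply hx
    ext e
    simp only [Finset.mem_sdiff]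
    constructor
    · rintro ⟨h4, h5⟩
      refine ⟨?_, h5⟩
      by_contra h6
      exact h5 (hcon e (Finset.mem_symmDiff.mpr (Or.inl ⟨h4, h6⟩)))
    · rintro ⟨h4, h5⟩
      refine ⟨?_, h5⟩
      by_contra h6
      exact h5 (hcon e (Finset.mem_symmDiff.mpr (Or.inr ⟨h4, h6⟩)))
  -- each point of the comatching yields a direction
  have main : ∀ (t a b : NewV S) (x y z : Finset E), x ∉ newS S t → x ∈ newS S a →
      x ∈ newS S b → y ∈ newS S t → z ∈ newS S t → y ∈ newS S b → z ∈ newS S a →
      ∃ e, e ∉ S t.ty ∧ e ∈ S a.ty ∧ e ∈ S b.ty := by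
    intro t a b x y z hxt hxa hxb hyt hzt hyb hza
    obtain ⟨e, he, het⟩ := differ t x y hxt hyt
    refine ⟨e, het, ?_, ?_⟩
    · -- y and z agree off `S t`, so x and z differ at e
      apply agree a x z hxa hza
      have hyz : e ∉ symmDiff y z := fun h => het (agree t y z hyt hzt e h)
      exact symmDiff_aux x y z e he hyz
    · exact agree b x y hxb hyb e he
  obtain ⟨x1, a1, b1, c1⟩ := h1
  obtain ⟨x2, a2, b2, c2⟩ := h2
  obtain ⟨x3, a3, b3, c3⟩ := h3
  obtain ⟨e1, m1, m2, m3⟩ := main p q s x1 x2 x3 a1 b1 c1 a2 a3 c2 b3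
  obtain ⟨e2, k1, k2, k3⟩ := main q p s x2 x1 x3 b2 a2 c2 b1 b3 c1 a3
  obtain ⟨e3, l1, l2, l3⟩ := main s p q x3 x1 x2 c3 a3 b3 c1 c2 b1 a2
  exact hS p.ty q.ty s.ty ⟨e1, m1, m2, m3⟩ ⟨e2, k2, k1, k3⟩ ⟨e3, l2, l3, l1⟩

/-- The order on the new vertices: lexicographic, the type first. -/
def newR {S : V → Finset E} (r : V → V → Prop) (p q : NewV S) : Prop :=
  r p.ty q.ty ∨ (p.ty = q.ty ∧ WellOrderingRel p.base q.base)

lemma newR_sto {S : V → Finset E} (r : V → V → Prop) [IsStrictTotalOrder V r] :
    IsStrictTotalOrder (NewV S) (newR r) := by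
  refine { trichotomous := ?_, irrefl := ?_, trans := ?_ }
  · intro p q h1 h2
    unfold newR at h1 h2
    push Not at h1 h2
    rcases trichotomous_of r p.ty q.ty with h | h | h
    · exact absurd h h1.1
    · rcases trichotomous_of (WellOrderingRel (α := Finset E)) p.base q.base with h' | h' | h'
      · exact absurd h' (h1.2 h)
      · exact NewV.ext' h h'
      · exact absurd h' (h2.2 h.symm)
    · exact absurd h h2.1
  · intro p h
    rcases h with h | ⟨_, h⟩
    · exact irrefl _ h
    · exact irrefl _ h
  · intro p q s h1 h2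
    rcases h1 with h1 | ⟨h1, h1'⟩
    · rcases h2 with h2 | ⟨h2, h2'⟩
      · exact Or.inl (_root_.trans h1 h2)
      · exact Or.inl (h2 ▸ h1)
    · rcases h2 with h2 | ⟨h2, h2'⟩
      · exact Or.inl (h1 ▸ h2)
      · exact Or.inr ⟨h1.trans h2, _root_.trans h1' h2'⟩

lemma newR_chamber {S : V → Finset E} (r : V → V → Prop) (x : Finset E) (u v : V) :
    newR r (chamber S x u) (chamber S x v) ↔ r u v := by
  unfold newR
  rw [chamber_fst, chamber_fst, chamber_snd, chamber_snd]
  constructor
  · rintro (h | ⟨h, h'⟩)
    · exact h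
    · subst h
      exact absurd h' (irrefl _)
  · intro h
    exact Or.inl h

/-- The alternating sum of the copies of the chain `c` in all chambers. -/
noncomputable def spread (S : V → Finset E) (c : Finset V →₀ ℚ) : Finset (NewV S) →₀ ℚ :=
  ∑ x : Finset E, (-1 : ℚ) ^ x.card • Finsupp.mapDomain (Finset.map (chamber S x)) c

lemma boundary_spread (S : V → Finset E) (r : V → V → Prop) (c : Finset V →₀ ℚ) :
    boundary (newR r) (spread S c) = spread S (boundary r c) := by
  unfold spread
  rw [map_sum]
  refine Finset.sum_congr rfl fun x _ => ?_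
  rw [map_smul, boundary_mapDomain r (newR r) (chamber S x) (newR_chamber r x)]

lemma spread_eq_zero (S : V → Finset E) (z : Finset V →₀ ℚ)
    (hz : ∀ σ ∈ z.support, ∃ e, ∀ v ∈ σ, e ∈ S v) : spread S z = 0 := by
  unfold spread
  have h1 : ∀ x : Finset E, (-1 : ℚ) ^ x.card • Finsupp.mapDomain (Finset.map (chamber S x)) z =
      ∑ σ ∈ z.support, Finsupp.single (σ.map (chamber S x)) ((-1 : ℚ) ^ x.card * z σ) := by
    intro x
    rw [Finsupp.mapDomain, Finsupp.sum, Finset.smul_sum]
    refine Finset.sum_congr rfl fun σ _ => ?_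
    rw [Finsupp.smul_single, smul_eq_mul]
  rw [Finset.sum_congr rfl (fun x _ => h1 x), Finset.sum_comm]
  refine Finset.sum_eq_zero fun σ hσ => ?_
  obtain ⟨e, he⟩ := hz σ hσ
  have flipmap : ∀ x y : Finset E, (∀ f, f ≠ e → (f ∈ x ↔ f ∈ y)) →
      σ.map (chamber S x) = σ.map (chamber S y) := by
    intro x y hxy
    have : ∀ v ∈ σ, chamber S x v = chamber S y v := by
      intro v hv
      apply NewV.ext'
      · rfl
      · rw [chamber_snd, chamber_snd]
        ext f
        simp only [Finset.mem_sdiff]
        by_cases hf : f = e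
        · subst hf
          have := he v hv
          tauto
        · rw [hxy f hf]
    rw [Finset.map_eq_image, Finset.map_eq_image]
    exact Finset.image_congr this
  refine Finset.sum_involution (fun x _ => if e ∈ x then x.erase e else insert e x)
    ?_ ?_ ?_ ?_
  · intro x _
    by_cases hx : e ∈ x
    · rw [if_pos hx]
      rw [flipmap x (x.erase e) (by intro f hf; simp [hf])]
      rw [← Finsupp.single_add]
      have hcard : x.card = (x.erase e).card + 1 := (Finset.card_erase_add_one hx).symm
      rw [hcard, pow_succ]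
      simp
    · rw [if_neg hx]
      rw [flipmap x (insert e x) (by intro f hf; simp [hf])]
      rw [← Finsupp.single_add]
      rw [Finset.card_insert_of_notMem hx, pow_succ]
      simp
  · intro x _ _ h
    by_cases hx : e ∈ x
    · rw [if_pos hx] at h
      have := Finset.notMem_erase e x
      rw [h] at this
      exact this hx
    · rw [if_neg hx] at h
      have := Finset.mem_insert_self e x
      rw [h] at this
      exact hx this
  · intro x _
    exact Finset.mem_univ _
  · intro x _
    by_cases hx : e ∈ x
    · simp [hx, Finset.insert_erase hx]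
    · simp [hx, Finset.erase_insert hx]

lemma support_spread (S : V → Finset E) (c : Finset V →₀ ℚ) (n : ℕ)
    (hc : ∀ σ ∈ c.support, σ.card = n) :
    ∀ τ ∈ (spread S c).support, (∃ x, ∀ p ∈ τ, x ∈ newS S p) ∧ τ.card = n := by
  intro τ hτ
  unfold spread at hτ
  have h1 := Finsupp.support_finsetSum hτ
  rw [Finset.mem_biUnion] at h1
  obtain ⟨x, _, hx⟩ := h1
  have h2 := Finsupp.support_smul hx
  have h3 := Finsupp.mapDomain_support h2
  rw [Finset.mem_image] at h3
  obtain ⟨σ, hσ, rfl⟩ := h3
  refine ⟨⟨x, ?_⟩, ?_⟩
  · intro p hp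
    rw [Finset.mem_map] at hp
    obtain ⟨v, _, rfl⟩ := hp
    rw [mem_newS_iff]
    rfl
  · rw [Finset.card_map]
    exact hc σ hσ

lemma spread_apply (S : V → Finset E) (c : Finset V →₀ ℚ) (σ : Finset V)
    (hσ : ¬ ∃ e, ∀ v ∈ σ, e ∈ S v) :
    spread S c (σ.map (chamber S ∅)) = c σ := by
  unfold spread
  rw [Finsupp.finsetSum_apply, Finset.sum_eq_single ∅]
  · rw [Finset.card_empty, pow_zero, one_smul,
      Finsupp.mapDomain_apply (Finset.map_injective (chamber S ∅))]
  · intro x _ hx
    rw [Finsupp.smul_apply, Finsupp.mapDomain_of_notMem_range, smul_zero]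
    rintro ⟨τ, hτ⟩
    apply hσ
    obtain ⟨e, he⟩ := Finset.nonempty_iff_ne_empty.mpr hx
    refine ⟨e, fun v hv => ?_⟩
    have h1 : chamber S ∅ v ∈ σ.map (chamber S ∅) := Finset.mem_map_of_mem _ hv
    rw [← hτ, Finset.mem_map] at h1
    obtain ⟨u, _, hu⟩ := h1
    have h2 := congrArg (fun p : NewV S => p.ty) hu
    have h3 := congrArg (fun p : NewV S => p.base) hu
    simp only [chamber_fst, chamber_snd] at h2 h3
    subst h2
    rw [Finset.empty_sdiff, Finset.sdiff_eq_empty_iff_subset] at h3
    exact h3 he
  · intro h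
    exact absurd (Finset.mem_univ _) h

lemma boundary_chamber (S : V → Finset E) (r : V → V → Prop) [IsStrictTotalOrder V r]
    [IsStrictTotalOrder (NewV S) (newR r)]
    (B : Finset (NewV S) →₀ ℚ) (hB : ∀ τ ∈ B.support, ∃ x, ∀ p ∈ τ, x ∈ newS S p)
    (σ : Finset V) (hσ : ¬ ∃ e, ∀ v ∈ σ, e ∈ S v) :
    boundary (newR r) B (σ.map (chamber S ∅)) =
      boundary r (Finsupp.equivFunOnFinite.symm
        (fun τ : Finset V => B (τ.map (chamber S ∅)))) σ := by
  rw [boundary_apply, boundary_apply]
  symm
  have h1 : ∀ v ∈ (univ.filter (fun v => v ∉ σ) : Finset V),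
      (-1 : ℚ) ^ (σ.filter (fun u => r u v)).card *
        (Finsupp.equivFunOnFinite.symm
          (fun τ : Finset V => B (τ.map (chamber S ∅)))) (insert v σ) =
      (fun q => (-1 : ℚ) ^ ((σ.map (chamber S ∅)).filter (fun u => newR r u q)).card *
        B (insert q (σ.map (chamber S ∅)))) (chamber S ∅ v) := by
    intro v _
    simp only [Finsupp.equivFunOnFinite_symm_apply_apply]
    rw [Finset.map_insert, Finset.filter_map, Finset.card_map]
    congr 3
    ext u
    simp [newR_chamber]
  refine (Finset.sum_congr rfl h1).trans ?_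
  have h2 : ∑ q ∈ (univ.filter (fun v => v ∉ σ) : Finset V).map (chamber S ∅),
      (-1 : ℚ) ^ ((σ.map (chamber S ∅)).filter (fun u => newR r u q)).card *
        B (insert q (σ.map (chamber S ∅))) =
      ∑ v ∈ (univ.filter (fun v => v ∉ σ) : Finset V),
      (fun q => (-1 : ℚ) ^ ((σ.map (chamber S ∅)).filter (fun u => newR r u q)).card *
        B (insert q (σ.map (chamber S ∅)))) (chamber S ∅ v) := by
    rw [Finset.sum_map]
  rw [← h2]
  apply Finset.sum_subset
  · intro q hq
    rw [Finset.mem_map] at hq
    obtain ⟨v, hv, rfl⟩ := hq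
    simp only [mem_filter, mem_univ, true_and] at hv ⊢
    intro h
    rw [Finset.mem_map'] at h
    exact hv h
  · intro q hq hq'
    simp only [mem_filter, mem_univ, true_and] at hq
    rw [mul_eq_zero]
    right
    by_contra hne
    obtain ⟨x, hx⟩ := hB _ (Finsupp.mem_support_iff.mpr hne)
    have hxq := hx q (Finset.mem_insert_self _ _)
    rw [mem_newS_iff] at hxq
    by_cases hx0 : x = ∅
    · subst hx0
      apply hq'
      rw [Finset.mem_map]
      refine ⟨q.ty, ?_, hxq⟩
      simp only [mem_filter, mem_univ, true_and]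
      intro h
      apply hq
      rw [← hxq]
      exact Finset.mem_map_of_mem _ h
    · apply hσ
      obtain ⟨e, he⟩ := Finset.nonempty_iff_ne_empty.mpr hx0
      refine ⟨e, fun v hv => ?_⟩
      have h2 := hx (chamber S ∅ v) (Finset.mem_insert_of_mem (Finset.mem_map_of_mem _ hv))
      rw [mem_newS, chamber_fst, chamber_snd, Finset.empty_sdiff,
        Finset.sdiff_eq_empty_iff_subset] at h2
      exact h2 he

end step

lemma exists_succ (n : ℕ) (h : Exists n) : Exists (n + 1) := by
  classical
  obtain ⟨E, V, _, _, S, r, _, z, hinj, htau, hz, hbz, hnb⟩ := h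
  have hsto : IsStrictTotalOrder (NewV S) (newR r) := newR_sto r
  -- the vertex set is nonempty
  have hz0 : z ≠ 0 := by
    rintro rfl
    apply hnb
    exact ⟨0, by simp, by simp⟩
  have hV : Nonempty V := by
    obtain ⟨σ, hσ⟩ := Finsupp.support_nonempty_iff.mpr hz0
    have h1 := (hz σ hσ).2
    have h2 : σ.Nonempty := Finset.card_pos.mp (by omega)
    obtain ⟨v, _⟩ := h2
    exact ⟨v⟩
  obtain ⟨v0, hv0⟩ : ∃ v0 : V, ∀ v, ¬ r v v0 := by
    have hwf : WellFounded r := Finite.wellFounded_of_trans_of_irrefl r
    exact ⟨hwf.min Set.univ Set.univ_nonempty, fun v => hwf.not_lt_min _ (Set.mem_univ v)⟩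
  obtain ⟨c, hc, hbc⟩ := exists_cone r v0 hv0 z hbz (n + 1) (fun σ hσ => (hz σ hσ).2)
  refine ⟨Finset E, NewV S, inferInstance, inferInstance, newS S, newR r, inferInstance,
    spread S c, newS_injective S hinj, newS_tau S htau, ?_, ?_, ?_⟩
  · exact support_spread S c (n + 1 + 1) hc
  · rw [boundary_spread, hbc]
    exact spread_eq_zero S z (fun σ hσ => (hz σ hσ).1)
  · rintro ⟨B, hB, hBz⟩
    set b : Finset V →₀ ℚ := Finsupp.equivFunOnFinite.symm
        (fun τ : Finset V => B (τ.map (chamber S ∅))) with hb
    have hbsupp : ∀ σ ∈ b.support, σ.card = n + 1 + 1 + 1 := by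
      intro σ hσ
      rw [Finsupp.mem_support_iff, hb] at hσ
      simp only [Finsupp.equivFunOnFinite_symm_apply_apply] at hσ
      have := (hB _ (Finsupp.mem_support_iff.mpr hσ)).2
      rwa [Finset.card_map] at this
    have key : ∀ σ : Finset V, (¬ ∃ e, ∀ v ∈ σ, e ∈ S v) → c σ = boundary r b σ := by
      intro σ hσ
      rw [← spread_apply S c σ hσ, ← hBz]
      exact boundary_chamber S r B (fun τ hτ => (hB τ hτ).1) σ hσ
    apply hnb
    refine ⟨c - boundary r b, ?_, ?_⟩
    · intro σ hσ
      constructor
      · by_contra hne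
        rw [Finsupp.mem_support_iff, Finsupp.sub_apply, key σ hne, sub_self] at hσ
        exact hσ rfl
      · by_cases h1 : c σ = 0
        · rw [Finsupp.mem_support_iff, Finsupp.sub_apply, h1, zero_sub, neg_ne_zero,
            boundary_apply] at hσ
          obtain ⟨v, hv, hv2⟩ := Finset.exists_ne_zero_of_sum_ne_zero hσ
          simp only [mem_filter, mem_univ, true_and] at hv
          have h2 := hbsupp _ (Finsupp.mem_support_iff.mpr (right_ne_zero_of_mul hv2))
          rw [Finset.card_insert_of_notMem hv] at h2
          omega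
        · exact hc σ (Finsupp.mem_support_iff.mpr h1)
    · rw [map_sub, boundary_boundary, sub_zero, hbc]

lemma exists_all (n : ℕ) : Exists n := by
  induction n with
  | zero => exact exists_zero
  | succ n ih => exact exists_succ n ih

/-- For every `d ≥ 1` there is a finite set `X` and a family `F` of subsets of `X` with comatching
number at most `2` whose nerve is not `d`-Leray (whatever total order of the vertices is used to
write down the simplicial chain complex). -/
theorem result :
    ∀ d : ℕ, 0 < d → ∃ (X : Type) (F : Set (Set X)), Finite X ∧ ComatchingNumberLE F 2 ∧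
      ∀ r : Set X → Set X → Prop, IsStrictTotalOrder (Set X) r → ¬ IsLeray r d (nerve F) := by
  classical
  intro d _
  obtain ⟨E, V, _, _, S, r, _, z, hinj, htau, hz, hbz, hnb⟩ := exists_all d
  have hι : Function.Injective (fun v => (S v : Set E)) := fun u v h =>
    hinj (Finset.coe_injective h)
  refine ⟨E, Set.range (fun v => (S v : Set E)), inferInstance, ?_, ?_⟩
  · intro M hM hcom
    by_contra hcard
    push Not at hcard
    rw [Finset.two_lt_card] at hcard
    obtain ⟨a, ha, b, hb, c, hc, hab, hac, hbc⟩ := hcard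
    obtain ⟨u, hu⟩ := hM ha
    obtain ⟨v, hv⟩ := hM hb
    obtain ⟨w, hw⟩ := hM hc
    simp only at hu hv hw
    obtain ⟨x, hx, hx'⟩ := hcom a ha
    obtain ⟨y, hy, hy'⟩ := hcom b hb
    obtain ⟨t, ht, ht'⟩ := hcom c hc
    have hx1 := hx' b hb hab.symm
    have hx2 := hx' c hc hac.symm
    have hy1 := hy' a ha hab
    have hy2 := hy' c hc hbc.symm
    have ht1 := ht' a ha hac
    have ht2 := ht' b hb hbc
    rw [← hu] at hx hy1 ht1
    rw [← hv] at hx1 hy ht2
    rw [← hw] at hx2 hy2 ht
    simp only [Finset.mem_coe] at hx hx1 hx2 hy hy1 hy2 ht ht1 ht2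
    exact htau u v w ⟨x, hx, hx1, hx2⟩ ⟨y, hy1, hy, hy2⟩ ⟨t, ht1, ht2, ht⟩
  · intro r0 _ hL
    -- the induced order on the index type
    let ι : V ↪ Set E := ⟨fun v => (S v : Set E), hι⟩
    let r1 : V → V → Prop := fun u v => r0 (ι u) (ι v)
    have hr1 : IsStrictTotalOrder V r1 := by
      refine { trichotomous := ?_, irrefl := ?_, trans := ?_ }
      · intro u v h1 h2
        rcases trichotomous_of r0 (ι u) (ι v) with h | h | h
        · exact absurd h h1
        · exact ι.injective h
        · exact absurd h h2
      · intro u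
        exact irrefl (r := r0) (ι u)
      · intro u v w h1 h2
        exact _root_.trans (r := r0) h1 h2
    have hnat : ∀ c : Finset V →₀ ℚ, boundary r0 (Finsupp.mapDomain (Finset.map ι) c) =
        Finsupp.mapDomain (Finset.map ι) (boundary r1 c) :=
      fun c => boundary_mapDomain r1 r0 ι (fun _ _ => Iff.rfl) c
    have hmapinj : Function.Injective (Finset.map ι) := Finset.map_injective ι
    obtain ⟨B, hB, hBz⟩ := hL Set.univ d le_rfl
      (Finsupp.mapDomain (Finset.map ι) (reorient r r1 z)) (by
        intro τ hτ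
        have h3 := Finsupp.mapDomain_support hτ
        rw [Finset.mem_image] at h3
        obtain ⟨σ, hσ, rfl⟩ := h3
        have h4 := hz σ (support_reorient r r1 z hσ)
        refine ⟨⟨⟨?_, ?_, ?_⟩, fun _ _ => Set.mem_univ _⟩, ?_⟩
        · rw [Finset.map_nonempty]
          exact Finset.card_pos.mp (by omega)
        · intro A hA
          rw [Finset.mem_coe, Finset.mem_map] at hA
          obtain ⟨v, _, rfl⟩ := hA
          exact ⟨v, rfl⟩
        · obtain ⟨e, he⟩ := h4.1
          refine ⟨e, fun A hA => ?_⟩
          rw [Finset.mem_map] at hA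
          obtain ⟨v, hv, rfl⟩ := hA
          exact Finset.mem_coe.mpr (he v hv)
        · rw [Finset.card_map]
          exact h4.2) (by
        rw [hnat, boundary_reorient, hbz]
        have : reorient r r1 (0 : Finset V →₀ ℚ) = 0 := by
          ext σ
          rw [reorient_apply]
          simp
        rw [this, Finsupp.mapDomain_zero])
    -- pull the bounding chain back
    have hrange : ∀ τ ∈ B.support, τ ∈ Set.range (Finset.map ι) := by
      intro τ hτ
      have h1 := (hB τ hτ).1.1.2.1
      have h2 : (τ : Set (Set E)) ⊆ Set.range ι := h1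
      refine ⟨τ.preimage ι ι.injective.injOn, ?_⟩
      rw [Finset.map_eq_image, Finset.image_preimage]
      rw [Finset.filter_true_of_mem]
      intro A hA
      exact h2 hA
    set b0 : Finset V →₀ ℚ := Finsupp.comapDomain (Finset.map ι) B hmapinj.injOn with hb0
    have hb0B : Finsupp.mapDomain (Finset.map ι) b0 = B :=
      Finsupp.mapDomain_comapDomain _ hmapinj _ hrange
    have hb0z : boundary r1 b0 = reorient r r1 z := by
      apply Finsupp.mapDomain_injective hmapinj
      rw [← hnat, hb0B, hBz]
    apply hnb
    refine ⟨reorient r1 r b0, ?_, ?_⟩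
    · intro σ hσ
      have h1 := support_reorient r1 r b0 hσ
      have h2 : σ.map ι ∈ B.support := by
        rw [Finsupp.mem_support_iff] at h1 ⊢
        rw [hb0, Finsupp.comapDomain_apply] at h1
        exact h1
      have h3 := hB _ h2
      rw [Finset.card_map] at h3
      refine ⟨?_, h3.2⟩
      obtain ⟨e, he⟩ := h3.1.1.2.2
      exact ⟨e, fun v hv => Finset.mem_coe.mp (he _ (Finset.mem_map_of_mem ι hv))⟩
    · rw [boundary_reorient, hb0z]
      ext σ
      rw [reorient_apply, reorient_apply, ← mul_assoc]
      have : epsSign r1 r σ * epsSign r r1 σ = 1 := by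
        have h1 : epsSign r1 r σ = epsSign r r1 σ := by
          unfold epsSign
          congr 1
          refine Finset.card_bij (fun p _ => (p.2, p.1)) ?_ ?_ ?_
          · rintro ⟨p, q⟩ h
            simp only [mem_filter, mem_product] at h ⊢
            exact ⟨⟨h.1.2, h.1.1⟩, h.2.2, h.2.1⟩
          · rintro ⟨p, q⟩ _ ⟨p', q'⟩ _ h
            simp only [Prod.mk.injEq] at h ⊢
            exact ⟨h.2, h.1⟩
          · rintro ⟨p, q⟩ h
            simp only [mem_filter, mem_product] at h
            refine ⟨(q, p), ?_, rfl⟩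
            simp only [mem_filter, mem_product]
            exact ⟨⟨h.1.2, h.1.1⟩, h.2.2, h.2.1⟩
        rw [h1, epsSign_mul_self]
      rw [this, one_mul]

end Pool.Agent.Results.MP_587f0f_co.UnboundedLeray
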